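import Pool.Agent.TH57.Thr.Red
import Pool.Agent.TH57.Thr.Asm

set_option autoImplicit false
set_option linter.unusedSectionVars false

/-! # Elementary factorisations of invertible matrices over integral group rings -/

namespace Pool.Agent.J4.H3.WU

open Matrix TH57.Thr
open scoped commutatorElement

/-! ### Whitehead's lemma -/

section el

variable {R : Type} [Ring R] {κ : Type} [Fintype κ] [DecidableEq κ]

theorem el_upper (X : Matrix κ κ R) :
    (fromBlocks 1 X 0 1 : Matrix (κ ⊕ κ) (κ ⊕ κ) R) ∈ El (R := R) (κ ⊕ κ) := by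
  have h := el_unip (Finset.univ.filter fun v : κ ⊕ κ => v.isLeft)
    (fromBlocks 0 X 0 0 : Matrix (κ ⊕ κ) (κ ⊕ κ) R) (by
      rintro (i | i) (j | j) h <;> simp at h ⊢)
  rw [← Matrix.fromBlocks_one, Matrix.fromBlocks_add] at h
  simpa using h

theorem el_lower (X : Matrix κ κ R) :
    (fromBlocks 1 0 X 1 : Matrix (κ ⊕ κ) (κ ⊕ κ) R) ∈ El (R := R) (κ ⊕ κ) := by
  have h := el_unip (Finset.univ.filter fun v : κ ⊕ κ => v.isRight)
    (fromBlocks 0 0 X 0 : Matrix (κ ⊕ κ) (κ ⊕ κ) R) (by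
      rintro (i | i) (j | j) h <;> simp at h ⊢)
  rw [← Matrix.fromBlocks_one, Matrix.fromBlocks_add] at h
  simpa using h

theorem el_diag (x : (Matrix κ κ R)ˣ) :
    (fromBlocks x.val 0 0 x⁻¹.val : Matrix (κ ⊕ κ) (κ ⊕ κ) R) ∈ El (R := R) (κ ⊕ κ) := by
  have h : (fromBlocks x.val 0 0 x⁻¹.val : Matrix (κ ⊕ κ) (κ ⊕ κ) R) =
      fromBlocks 1 x.val 0 1 * fromBlocks 1 0 (-x⁻¹.val) 1 * fromBlocks 1 x.val 0 1 *
        (fromBlocks 1 (-1) 0 1 * fromBlocks 1 0 1 1 * fromBlocks 1 (-1) 0 1) := by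
    have h1 : x.val * x⁻¹.val = 1 := x.mul_inv
    have h2 : x⁻¹.val * x.val = 1 := x.inv_mul
    simp only [Matrix.fromBlocks_multiply]
    simp [h1, h2]
  rw [h]
  exact mul_mem (mul_mem (mul_mem (el_upper _) (el_lower _)) (el_upper _))
    (mul_mem (mul_mem (el_upper _) (el_lower _)) (el_upper _))

/-- stabilised commutators are products of elementary matrices -/
theorem el_comm (x y : (Matrix κ κ R)ˣ) :
    (fromBlocks (⁅x, y⁆ : (Matrix κ κ R)ˣ).val 0 0 1 : Matrix (κ ⊕ κ) (κ ⊕ κ) R) ∈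
      El (R := R) (κ ⊕ κ) := by
  have h : (fromBlocks (⁅x, y⁆ : (Matrix κ κ R)ˣ).val 0 0 1 : Matrix (κ ⊕ κ) (κ ⊕ κ) R) =
      fromBlocks x.val 0 0 x⁻¹.val * fromBlocks y.val 0 0 y⁻¹.val *
        fromBlocks ((y * x)⁻¹).val 0 0 ((y * x)⁻¹)⁻¹.val := by
    simp only [Matrix.fromBlocks_multiply]
    have h1 : (⁅x, y⁆ : (Matrix κ κ R)ˣ) = x * y * (y * x)⁻¹ := by
      rw [commutatorElement_def]; group
    have h2 : x⁻¹ * y⁻¹ * ((y * x)⁻¹)⁻¹ = 1 := by group
    rw [h1]
    have h3 := congrArg Units.val h2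
    rw [Units.val_mul, Units.val_mul, Units.val_one] at h3
    simp only [Matrix.mul_zero, Matrix.zero_mul, add_zero, zero_add]
    rw [h3, Units.val_mul, Units.val_mul]
  rw [h]
  exact mul_mem (mul_mem (el_diag _) (el_diag _)) (el_diag _)

theorem el_of_commutator (C : (Matrix κ κ R)ˣ) (h : C ∈ commutator (Matrix κ κ R)ˣ) :
    (fromBlocks C.val 0 0 1 : Matrix (κ ⊕ κ) (κ ⊕ κ) R) ∈ El (R := R) (κ ⊕ κ) := by
  have key : ∀ C ∈ commutator (Matrix κ κ R)ˣ,
      (fromBlocks C.val 0 0 1 : Matrix (κ ⊕ κ) (κ ⊕ κ) R) ∈ El (R := R) (κ ⊕ κ) ∧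
      (fromBlocks C⁻¹.val 0 0 1 : Matrix (κ ⊕ κ) (κ ⊕ κ) R) ∈ El (R := R) (κ ⊕ κ) := by
    intro C hC
    rw [commutator_def, Subgroup.commutator_def] at hC
    induction hC using Subgroup.closure_induction with
    | mem z hz =>
      obtain ⟨x, _, y, _, rfl⟩ := hz
      refine ⟨el_comm x y, ?_⟩
      rw [commutatorElement_inv]
      exact el_comm y x
    | one => rw [inv_one, Units.val_one, Matrix.fromBlocks_one]; exact ⟨one_mem _, one_mem _⟩
    | mul a b _ _ ha hb =>
      have e : ∀ x y : Matrix κ κ R, (fromBlocks (x * y) 0 0 1 : Matrix (κ ⊕ κ) (κ ⊕ κ) R) =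
          fromBlocks x 0 0 1 * fromBlocks y 0 0 1 := by
        intro x y
        rw [Matrix.fromBlocks_multiply]; simp
      refine ⟨?_, ?_⟩
      · rw [Units.val_mul, e]
        exact mul_mem ha.1 hb.1
      · rw [_root_.mul_inv_rev, Units.val_mul, e]
        exact mul_mem hb.2 ha.2
    | inv a _ ha => exact ⟨ha.2, by rw [inv_inv]; exact ha.1⟩
  exact (key C h).1

/-- elements of `El` as explicit products -/
theorem el_list (M : Matrix κ κ R) (h : M ∈ El (R := R) κ) :
    ∃ l : List (κ × κ × R), (∀ t ∈ l, t.1 ≠ t.2.1) ∧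
      M = (l.map fun t => 1 + Matrix.single t.1 t.2.1 t.2.2).prod := by
  induction h using Submonoid.closure_induction with
  | mem x hx =>
    obtain ⟨i, j, hij, a, rfl⟩ := hx
    exact ⟨[(i, j, a)], by simpa using hij, by simp⟩
  | one => exact ⟨[], by simp, by simp⟩
  | mul x y _ _ hx hy =>
    obtain ⟨l, h1, h2⟩ := hx
    obtain ⟨l', h3, h4⟩ := hy
    refine ⟨l ++ l', ?_, ?_⟩
    · intro t ht
      rcases List.mem_append.1 ht with h | h
      · exact h1 t h
      · exact h3 t h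
    · rw [List.map_append, List.prod_append, ← h2, ← h4]

theorem list_el (l : List (κ × κ × R)) (h : ∀ t ∈ l, t.1 ≠ t.2.1) :
    (l.map fun t => 1 + Matrix.single t.1 t.2.1 t.2.2).prod ∈ El (R := R) κ := by
  induction l with
  | nil => simp [one_mem]
  | cons t l ih =>
    rw [List.map_cons, List.prod_cons]
    exact mul_mem (el_transv _ _ (h t (List.mem_cons_self ..)) _)
      (ih fun s hs => h s (List.mem_cons_of_mem _ hs))

end el

/-! ### norms -/

section nm

variable {Γ Δ : Type} [Group Γ] [Group Δ]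

/-- the sum of the absolute values of the coefficients -/
def nm (x : MonoidAlgebra ℤ Γ) : ℕ := ∑ g ∈ x.coeff.support, (x.coeff g).natAbs

theorem nm_eq (x : MonoidAlgebra ℤ Γ) (T : Finset Γ) (h : x.coeff.support ⊆ T) :
    nm x = ∑ g ∈ T, (x.coeff g).natAbs :=
  Finset.sum_subset h fun g _ hg => by rw [Finsupp.notMem_support_iff.1 hg]; rfl

theorem nm_zero_iff (x : MonoidAlgebra ℤ Γ) : nm x = 0 ↔ x = 0 := by
  constructor
  · intro h
    ext g
    by_cases hg : g ∈ x.coeff.support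
    · have := (Finset.sum_eq_zero_iff.1 h) g hg
      simpa using this
    · simpa using Finsupp.notMem_support_iff.1 hg
  · rintro rfl
    simp [nm]

theorem nm_add_le (x y : MonoidAlgebra ℤ Γ) : nm (x + y) ≤ nm x + nm y := by
  classical
  rw [nm_eq (x + y) (x.coeff.support ∪ y.coeff.support) (by
      rw [MonoidAlgebra.coeff_add]
      exact Finsupp.support_add),
    nm_eq x _ Finset.subset_union_left, nm_eq y _ Finset.subset_union_right,
    ← Finset.sum_add_distrib]
  refine Finset.sum_le_sum fun g _ => ?_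
  rw [MonoidAlgebra.coeff_add, Finsupp.add_apply]
  exact Int.natAbs_add_le _ _

theorem nm_single_le (g : Γ) (a : ℤ) : nm (MonoidAlgebra.single g a) ≤ a.natAbs := by
  rw [nm_eq _ {g} (by
    rw [MonoidAlgebra.coeff_single]
    exact Finsupp.support_single_subset)]
  simp [MonoidAlgebra.coeff_single]

theorem nm_sum_le {ι : Type} (s : Finset ι) (f : ι → MonoidAlgebra ℤ Γ) :
    nm (∑ i ∈ s, f i) ≤ ∑ i ∈ s, nm (f i) := by
  classical
  induction s using Finset.induction_on with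
  | empty => rw [Finset.sum_empty, Finset.sum_empty, (nm_zero_iff _).2 rfl]
  | insert a s ha ih =>
    rw [Finset.sum_insert ha, Finset.sum_insert ha]
    exact (nm_add_le _ _).trans (Nat.add_le_add_left ih _)

/-- the ring homomorphism given by a homomorphism of groups -/
noncomputable abbrev mp (f : Γ →* Δ) : MonoidAlgebra ℤ Γ →+* MonoidAlgebra ℤ Δ :=
  MonoidAlgebra.mapDomainRingHom ℤ f

theorem mp_single (f : Γ →* Δ) (g : Γ) (a : ℤ) :
    mp f (MonoidAlgebra.single g a) = MonoidAlgebra.single (f g) a :=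
  MonoidAlgebra.mapDomain_single

theorem sum_single (x : MonoidAlgebra ℤ Γ) :
    x = ∑ g ∈ x.coeff.support, MonoidAlgebra.single g (x.coeff g) := by
  conv_lhs => rw [← MonoidAlgebra.sum_coeff_single x]
  rfl

theorem nm_mp_le (f : Γ →* Δ) (x : MonoidAlgebra ℤ Γ) : nm (mp f x) ≤ nm x := by
  conv_lhs => rw [sum_single x]
  rw [map_sum]
  refine (nm_sum_le _ _).trans (Finset.sum_le_sum fun g _ => ?_)
  rw [mp_single]
  exact nm_single_le _ _

theorem sign_dec (n : ℤ) (hn : n ≠ 0) :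
    ∃ ε : ℤ, (ε = 1 ∨ ε = -1) ∧ (n - ε).natAbs + 1 = n.natAbs := by
  rcases lt_or_gt_of_ne hn with h | h
  · exact ⟨-1, Or.inr rfl, by omega⟩
  · exact ⟨1, Or.inl rfl, by omega⟩

/-- removing one unit of a coefficient -/
theorem nm_dec (x : MonoidAlgebra ℤ Γ) (hx : x ≠ 0) :
    ∃ (g : Γ) (ε : ℤ), (ε = 1 ∨ ε = -1) ∧ nm (x - MonoidAlgebra.single g ε) + 1 = nm x := by
  classical
  obtain ⟨g, hg⟩ : ∃ g, x.coeff g ≠ 0 := by
    by_contra h
    push Not at h
    apply hx
    ext g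
    simpa using h g
  obtain ⟨ε, hε1, hε⟩ := sign_dec _ hg
  refine ⟨g, ε, hε1, ?_⟩
  have hsub : (x - MonoidAlgebra.single g ε).coeff.support ⊆ x.coeff.support := by
    intro h hh
    rw [Finsupp.mem_support_iff] at hh ⊢
    by_cases hgh : h = g
    · rw [hgh]; exact hg
    · intro h0
      apply hh
      rw [MonoidAlgebra.coeff_sub, Finsupp.sub_apply, h0, MonoidAlgebra.coeff_single,
        Finsupp.single_eq_of_ne hgh, sub_zero]
  rw [nm_eq _ _ hsub, nm]
  have hgm : g ∈ x.coeff.support := Finsupp.mem_support_iff.2 hg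
  rw [← Finset.add_sum_erase _ _ hgm, ← Finset.add_sum_erase x.coeff.support _ hgm]
  have h1 : ∑ y ∈ x.coeff.support.erase g,
      ((x - MonoidAlgebra.single g ε).coeff y).natAbs
      = ∑ y ∈ x.coeff.support.erase g, (x.coeff y).natAbs := by
    apply Finset.sum_congr rfl
    intro y hy
    rw [MonoidAlgebra.coeff_sub, Finsupp.sub_apply, MonoidAlgebra.coeff_single,
      Finsupp.single_eq_of_ne (Finset.ne_of_mem_erase hy), sub_zero]
  have h2 : ((x - MonoidAlgebra.single g ε).coeff g).natAbs + 1 = (x.coeff g).natAbs := by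
    rw [MonoidAlgebra.coeff_sub, Finsupp.sub_apply, MonoidAlgebra.coeff_single,
      Finsupp.single_eq_same]
    exact hε
  rw [h1]
  omega

/-- the coefficients of a pattern -/
def sg (j : Fin 3) : ℤ := (j : ℤ) - 1

/-- an element of norm at most `k` is a sum of `k` signed group elements or zeros -/
theorem nm_terms (k : ℕ) : ∀ x : MonoidAlgebra ℤ Γ, nm x ≤ k →
    ∃ (c : Fin k → Fin 3) (g : Fin k → Γ), x = ∑ t, MonoidAlgebra.single (g t) (sg (c t)) := by
  induction k with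
  | zero =>
    intro x hx
    refine ⟨Fin.elim0, Fin.elim0, ?_⟩
    rw [Finset.univ_eq_empty, Finset.sum_empty]
    exact (nm_zero_iff x).1 (Nat.le_zero.1 hx)
  | succ k ih =>
    intro x hx
    by_cases h0 : x = 0
    · refine ⟨fun _ => 1, fun _ => 1, ?_⟩
      have : sg 1 = 0 := by simp [sg]
      simp [h0, this]
    · obtain ⟨g, ε, hε, h1⟩ := nm_dec x h0
      obtain ⟨c, g', hc⟩ := ih (x - MonoidAlgebra.single g ε) (by omega)
      obtain ⟨j, hj⟩ : ∃ j : Fin 3, sg j = ε := by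
        rcases hε with rfl | rfl
        · exact ⟨2, by simp [sg]⟩
        · exact ⟨0, by simp [sg]⟩
      refine ⟨Fin.cons j c, Fin.cons g g', ?_⟩
      rw [Fin.sum_univ_succ]
      simp only [Fin.cons_zero, Fin.cons_succ]
      rw [hj, ← hc]
      abel

end nm

/-! ### factorisations -/

section fac

variable {Γ Δ : Type} [Group Γ] [Group Δ]

/-- the product of the elementary matrices `1 + x E_ij` for the entries `(i, j, x)` of a list -/
noncomputable def elProd {N : Type} [Fintype N] [DecidableEq N]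
    (l : List (N × N × MonoidAlgebra ℤ Γ)) : Matrix N N (MonoidAlgebra ℤ Γ) :=
  (l.map fun t => 1 + Matrix.single t.1 t.2.1 t.2.2).prod

/-- `diag(A, 1_m)` is the product of a diagonal matrix `diag(1, …, ± g, …, 1)` and at most `L`
elementary matrices with entries of norm at most `L`, where `m ≤ L`. -/
def Bounded (L : ℕ) {n : ℕ} (A : Matrix (Fin n) (Fin n) (MonoidAlgebra ℤ Γ)) : Prop :=
  ∃ (m : ℕ) (i : Fin n ⊕ Fin m) (g : Γ) (ε : ℤˣ)
    (l : List ((Fin n ⊕ Fin m) × (Fin n ⊕ Fin m) × MonoidAlgebra ℤ Γ)),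
    m ≤ L ∧ l.length ≤ L ∧ (∀ t ∈ l, t.1 ≠ t.2.1 ∧ nm t.2.2 ≤ L) ∧
    fromBlocks A 0 0 1 =
      Matrix.diagonal (Function.update 1 i (MonoidAlgebra.single g (ε : ℤ))) * elProd l

theorem Bounded.mono {L L' : ℕ} (h : L ≤ L') {n : ℕ}
    {A : Matrix (Fin n) (Fin n) (MonoidAlgebra ℤ Γ)} (hA : Bounded L A) : Bounded L' A := by
  obtain ⟨m, i, g, ε, l, h1, h2, h3, h4⟩ := hA
  exact ⟨m, i, g, ε, l, h1.trans h, h2.trans h, fun t ht => ⟨(h3 t ht).1, (h3 t ht).2.trans h⟩, h4⟩

theorem elProd_map {N : Type} [Fintype N] [DecidableEq N] (f : Γ →* Δ)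
    (l : List (N × N × MonoidAlgebra ℤ Γ)) :
    (elProd l).map (mp f) = elProd (l.map fun t => (t.1, t.2.1, mp f t.2.2)) := by
  unfold elProd
  have h1 : ∀ M : Matrix N N (MonoidAlgebra ℤ Γ), M.map (mp f) = (mp f).mapMatrix M := fun _ => rfl
  rw [h1, map_list_prod, List.map_map, List.map_map]
  congr 1
  apply List.map_congr_left
  intro t _
  simp only [Function.comp_apply]
  rw [map_add, map_one]
  congr 1
  ext i j
  simp only [RingHom.mapMatrix_apply, Matrix.map_apply, Matrix.single_apply]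
  split_ifs <;> simp

theorem diag_map {N : Type} [Fintype N] [DecidableEq N] (f : Γ →* Δ) (i : N) (g : Γ) (ε : ℤ) :
    (Matrix.diagonal (Function.update (1 : N → MonoidAlgebra ℤ Γ) i
      (MonoidAlgebra.single g ε))).map (mp f) =
      Matrix.diagonal (Function.update 1 i (MonoidAlgebra.single (f g) ε)) := by
  ext a b
  simp only [Matrix.map_apply, Matrix.diagonal_apply]
  by_cases h : a = b
  · subst h
    by_cases h2 : a = i
    · subst h2; simp [mp_single]
    · simp [Function.update_of_ne h2]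
  · simp [h]

theorem Bounded.map {L n : ℕ} {A : Matrix (Fin n) (Fin n) (MonoidAlgebra ℤ Γ)}
    (hA : Bounded L A) (f : Γ →* Δ) : Bounded L (A.map (mp f)) := by
  obtain ⟨m, i, g, ε, l, h1, h2, h3, h4⟩ := hA
  refine ⟨m, i, f g, ε, l.map fun t => (t.1, t.2.1, mp f t.2.2), h1, by simpa using h2, ?_, ?_⟩
  · intro t ht
    rw [List.mem_map] at ht
    obtain ⟨s, hs, rfl⟩ := ht
    exact ⟨(h3 s hs).1, (nm_mp_le f _).trans (h3 s hs).2⟩
  · have h5 : (fromBlocks A 0 0 1 : Matrix (Fin n ⊕ Fin m) (Fin n ⊕ Fin m) _).map (mp f) =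
        fromBlocks (A.map (mp f)) 0 0 1 := by
      rw [Matrix.fromBlocks_map]
      simp
    rw [← h5, h4]
    have h6 : ∀ M N : Matrix (Fin n ⊕ Fin m) (Fin n ⊕ Fin m) (MonoidAlgebra ℤ Γ),
        (M * N).map (mp f) = M.map (mp f) * N.map (mp f) := fun M N => Matrix.map_mul
    rw [h6, elProd_map, diag_map]

/-- bounded matrices are zero in the Whitehead group -/
theorem TT_of_bounded {L n : ℕ} (A : (Matrix (Fin n) (Fin n) (MonoidAlgebra ℤ Γ))ˣ)
    (hA : Bounded L A.val) : TT (TU Γ) A := by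
  obtain ⟨m, i, g, ε, l, h1, h2, h3, h4⟩ := hA
  obtain ⟨w, hw1, hw2⟩ := El_unit _ (list_el l fun t ht => (h3 t ht).1)
  have hu : (MonoidAlgebra.single g (ε : ℤ) : MonoidAlgebra ℤ Γ) *
      MonoidAlgebra.single g⁻¹ ((ε⁻¹ : ℤˣ) : ℤ) = 1 := by
    rw [MonoidAlgebra.single_mul_single, mul_inv_cancel, MonoidAlgebra.one_def]
    simp
  have hu' : (MonoidAlgebra.single g⁻¹ ((ε⁻¹ : ℤˣ) : ℤ) : MonoidAlgebra ℤ Γ) *
      MonoidAlgebra.single g (ε : ℤ) = 1 := by
    rw [MonoidAlgebra.single_mul_single, inv_mul_cancel, MonoidAlgebra.one_def]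
    simp
  let u : (MonoidAlgebra ℤ Γ)ˣ := ⟨_, _, hu, hu'⟩
  have h5 : Units.map (stm (Fin m)) A = Units.map (dgm i) u * w := by
    apply Units.ext
    rw [Units.val_mul, hw1]
    exact h4
  apply TT_unst (μ := Fin m)
  rw [h5]
  exact TT_mul _ _ _ (TT_of_mem _ _ (dgm_mem_HH _ _ _ ⟨g, ε, rfl⟩)) (hw2 _)

/-- reindexing of the product of elementary matrices -/
theorem elProd_re {N M : Type} [Fintype N] [DecidableEq N] [Fintype M] [DecidableEq M]
    (e : M ≃ N) (X : Matrix N N (MonoidAlgebra ℤ Γ)) (hX : X ∈ El (R := MonoidAlgebra ℤ Γ) N) :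
    ∃ l : List (M × M × MonoidAlgebra ℤ Γ), (∀ t ∈ l, t.1 ≠ t.2.1) ∧
      X.submatrix e e = elProd l :=
  el_list _ (el_reindex e X hX)

/-- zero in the Whitehead group, in the form of the frozen statement -/
def ZeroInWh {n : ℕ} (x : Matrix (Fin n) (Fin n) (MonoidAlgebra ℤ Γ)) : Prop :=
  ∃ (m : ℕ) (g : Γ) (ε : ℤˣ)
    (C : (Matrix (Fin n ⊕ Fin (m + 1)) (Fin n ⊕ Fin (m + 1)) (MonoidAlgebra ℤ Γ))ˣ),
    C ∈ commutator (Matrix (Fin n ⊕ Fin (m + 1)) (Fin n ⊕ Fin (m + 1)) (MonoidAlgebra ℤ Γ))ˣ ∧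
    Matrix.fromBlocks x 0 0 (1 : Matrix (Fin (m + 1)) (Fin (m + 1)) (MonoidAlgebra ℤ Γ)) =
      Matrix.diagonal (fun i : Fin n ⊕ Fin (m + 1) =>
          if i = Sum.inr (0 : Fin (m + 1)) then
            (MonoidAlgebra.single g ((ε : ℤ)) : MonoidAlgebra ℤ Γ) else 1) *
        (↑C : Matrix (Fin n ⊕ Fin (m + 1)) (Fin n ⊕ Fin (m + 1)) (MonoidAlgebra ℤ Γ))

theorem zero_of_TT {n : ℕ} {A : (Matrix (Fin n) (Fin n) (MonoidAlgebra ℤ Γ))ˣ}
    (h : TT (TU Γ) A) : ZeroInWh A.val := TT_frozen n A h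

theorem bounded_of_zero {n : ℕ} {A : Matrix (Fin n) (Fin n) (MonoidAlgebra ℤ Γ)}
    (h : ZeroInWh A) : ∃ L, Bounded L A := by
  classical
  obtain ⟨m, g, ε, C, hC, h1⟩ := h
  have hE := el_of_commutator C hC
  let K := Fin n ⊕ Fin (m + 1)
  let e : Fin n ⊕ Fin ((m + 1) + (n + (m + 1))) ≃ K ⊕ K :=
    (Equiv.sumCongr (Equiv.refl (Fin n)) (finSumFinEquiv.symm.trans
      (Equiv.sumCongr (Equiv.refl (Fin (m + 1))) finSumFinEquiv.symm))).trans
      (Equiv.sumAssoc (Fin n) (Fin (m + 1)) K).symm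
  obtain ⟨l, hl1, hl2⟩ := elProd_re (Γ := Γ) e _ hE
  set i0 : Fin n ⊕ Fin ((m + 1) + (n + (m + 1))) := e.symm (Sum.inl (Sum.inr 0)) with hi0
  refine ⟨(m + 1) + (n + (m + 1)) + l.length + (l.map fun t => nm t.2.2).sum,
    (m + 1) + (n + (m + 1)), i0, g, ε, l, by omega, by omega, ?_, ?_⟩
  · intro t ht
    refine ⟨hl1 t ht, ?_⟩
    have h2 : nm t.2.2 ≤ (l.map fun t => nm t.2.2).sum :=
      List.single_le_sum (by simp) _ (List.mem_map_of_mem ht)
    omega
  · rw [← hl2]
    have e1 : ∀ a : Fin n, e (Sum.inl a) = Sum.inl (Sum.inl a) := fun a => rfl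
    have e2 : ∀ a : Fin (m + 1), e (Sum.inr (finSumFinEquiv (Sum.inl a))) =
        Sum.inl (Sum.inr a) := fun a => by
      simp only [e, Equiv.trans_apply, Equiv.sumCongr_apply, Sum.map_inr,
        Equiv.symm_apply_apply, Sum.map_inl]
      rfl
    have e3 : ∀ a : Fin (n + (m + 1)), e (Sum.inr (finSumFinEquiv (Sum.inr a))) =
        Sum.inr (finSumFinEquiv.symm a) := fun a => by
      simp only [e, Equiv.trans_apply, Equiv.sumCongr_apply, Sum.map_inr,
        Equiv.symm_apply_apply]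
      rfl
    have h3 : (fromBlocks A 0 0 1 : Matrix (Fin n ⊕ Fin ((m + 1) + (n + (m + 1))))
        (Fin n ⊕ Fin ((m + 1) + (n + (m + 1)))) (MonoidAlgebra ℤ Γ)) =
        (fromBlocks (fromBlocks A 0 0 1 : Matrix K K (MonoidAlgebra ℤ Γ)) 0 0
          (1 : Matrix K K (MonoidAlgebra ℤ Γ))).submatrix e e := by
      ext1 a b
      rw [submatrix_apply]
      rcases a with a | a <;> rcases b with b | b
      · rw [e1, e1]; rfl
      · obtain ⟨b, rfl⟩ := finSumFinEquiv.surjective b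
        rcases b with b | b
        · rw [e1, e2]; rfl
        · rw [e1, e3]; rfl
      · obtain ⟨a, rfl⟩ := finSumFinEquiv.surjective a
        rcases a with a | a
        · rw [e1, e2]; rfl
        · rw [e1, e3]; rfl
      · obtain ⟨a, rfl⟩ := finSumFinEquiv.surjective a
        obtain ⟨b, rfl⟩ := finSumFinEquiv.surjective b
        rw [fromBlocks_apply₂₂, Matrix.one_apply]
        simp only [finSumFinEquiv.injective.eq_iff]
        rcases a with a | a <;> rcases b with b | b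
        · rw [e2, e2, fromBlocks_apply₁₁, fromBlocks_apply₂₂, Matrix.one_apply]
          simp
        · rw [e2, e3, fromBlocks_apply₁₂]
          simp
        · rw [e2, e3, fromBlocks_apply₂₁]
          simp
        · rw [e3, e3, fromBlocks_apply₂₂, Matrix.one_apply]
          simp
    have h4 : (fromBlocks (fromBlocks A 0 0 1 : Matrix K K (MonoidAlgebra ℤ Γ)) 0 0
          (1 : Matrix K K (MonoidAlgebra ℤ Γ))) =
        Matrix.diagonal (Function.update (1 : K ⊕ K → MonoidAlgebra ℤ Γ) (Sum.inl (Sum.inr 0))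
          (MonoidAlgebra.single g (ε : ℤ))) * fromBlocks C.val 0 0 1 := by
      have h5 : Matrix.diagonal (Function.update (1 : K ⊕ K → MonoidAlgebra ℤ Γ)
          (Sum.inl (Sum.inr 0)) (MonoidAlgebra.single g (ε : ℤ))) =
          fromBlocks (Matrix.diagonal (fun i : Fin n ⊕ Fin (m + 1) =>
          if i = Sum.inr (0 : Fin (m + 1)) then
            (MonoidAlgebra.single g ((ε : ℤ)) : MonoidAlgebra ℤ Γ) else 1)) 0 0 1 := by
        ext1 a b
        rcases a with a | a <;> rcases b with b | b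
        · simp only [Matrix.diagonal_apply, fromBlocks_apply₁₁, Sum.inl.injEq]
          by_cases h : a = b
          · subst h
            by_cases h2 : a = Sum.inr 0
            · subst h2; simp
            · rw [if_pos rfl, if_pos rfl, if_neg h2, Function.update_of_ne]
              · rfl
              · exact fun h => h2 (Sum.inl_injective h)
          · simp [h]
        · simp
        · simp
        · simp only [Matrix.diagonal_apply, fromBlocks_apply₂₂, Sum.inr.injEq, Matrix.one_apply]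
          by_cases h : a = b
          · subst h; simp
          · simp [h]
      rw [h5, Matrix.fromBlocks_multiply, h1]
      simp
    rw [h3, h4]
    have h6 : ∀ M N : Matrix (K ⊕ K) (K ⊕ K) (MonoidAlgebra ℤ Γ),
        (M * N).submatrix e e = M.submatrix e e * N.submatrix e e := fun M N => by
      rw [Matrix.submatrix_mul_equiv]
    rw [h6]
    congr 1
    ext a b
    simp only [submatrix_apply, Matrix.diagonal_apply, e.injective.eq_iff]
    by_cases h : a = b
    · subst h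
      by_cases h2 : a = i0
      · subst h2
        simp [hi0]
      · have h7 : e a ≠ Sum.inl (Sum.inr 0) := fun h8 => h2 (by rw [hi0, ← h8]; simp)
        simp [Function.update_of_ne h2, Function.update_of_ne h7]
    · simp [h]

theorem TT_of_zero {n : ℕ} {A : (Matrix (Fin n) (Fin n) (MonoidAlgebra ℤ Γ))ˣ}
    (h : ZeroInWh A.val) : TT (TU Γ) A := by
  obtain ⟨L, hL⟩ := bounded_of_zero h
  exact TT_of_bounded A hL

end fac

end Pool.Agent.J4.H3.WU
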