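import Pool.Agent.J4.H3.WU.Fac

set_option autoImplicit false
set_option linter.unusedSectionVars false

/-! # Classes of groups closed under subgroups and products -/

namespace Pool.Agent.J4.H3.WU

open Matrix TH57.Thr

/-- A class of groups. -/
abbrev Cls : Type 1 := (G : Type) → Group G → Prop

/-- The class `X` is closed under isomorphisms, subgroups and cartesian products. -/
structure QV (X : Cls) : Prop where
  sub : ∀ (G H : Type) [i : Group G] [j : Group H] (f : G →* H), Function.Injective f →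
    X H j → X G i
  prod : ∀ (I : Type) (G : I → Type) [i : ∀ k, Group (G k)], (∀ k, X (G k) (i k)) →
    X (∀ k, G k) inferInstance

/-- The intersection of the kernels of the homomorphisms of `G` to groups of `X` which kill `E`. -/
def rad (X : Cls) {G : Type} [Group G] (E : Set G) : Subgroup G where
  carrier := {g | ∀ (H : Type) [j : Group H] (f : G →* H), X H j → (∀ a ∈ E, f a = 1) → f g = 1}
  one_mem' := fun _ _ f _ _ => map_one f
  mul_mem' := fun ha hb H _ f hH hE => by rw [map_mul, ha H f hH hE, hb H f hH hE, mul_one]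
  inv_mem' := fun ha H _ f hH hE => by rw [map_inv, ha H f hH hE, inv_one]

variable {X : Cls}

theorem mem_rad {G : Type} [Group G] {E : Set G} {g : G} : g ∈ rad X E ↔
    ∀ (H : Type) [j : Group H] (f : G →* H), X H j → (∀ a ∈ E, f a = 1) → f g = 1 := Iff.rfl

instance rad_normal {G : Type} [Group G] (E : Set G) : (rad X E).Normal where
  conj_mem := fun a ha g H _ f hH hE => by
    rw [map_mul, map_mul, ha H f hH hE, mul_one, map_inv, mul_inv_cancel]

theorem sub_rad {G : Type} [Group G] (E : Set G) : E ⊆ rad X E :=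
  fun a ha _ _ _ _ hE => hE a ha

/-- `G / rad` is in the class -/
theorem X_quot (hX : QV X) {G : Type} [Group G] (E : Set G) :
    X (G ⧸ rad X E) inferInstance := by
  classical
  have h : ∀ g : {g : G // g ∉ rad X E}, ∃ (H : Type) (j : Group H) (f : G →* H),
      X H j ∧ (∀ a ∈ E, f a = 1) ∧ f g.1 ≠ 1 := by
    rintro ⟨g, hg⟩
    rw [mem_rad] at hg
    push Not at hg
    obtain ⟨H, j, f, h1, h2, h3⟩ := hg
    exact ⟨H, j, f, h1, h2, h3⟩
  choose H j f h1 h0 h2 using h
  let _ : ∀ g, Group (H g) := j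
  have h3 : X (∀ g, H g) inferInstance := hX.prod _ H h1
  let F : G →* ∀ g, H g := MonoidHom.pi f
  have hF : ∀ a ∈ rad X E, F a = 1 := fun a ha => funext fun g => ha (H g) (f g) (h1 g) (h0 g)
  refine hX.sub _ (∀ g, H g) (QuotientGroup.lift (rad X E) F hF) ?_ h3
  rw [injective_iff_map_eq_one]
  intro x hx
  obtain ⟨a, rfl⟩ := QuotientGroup.mk_surjective x
  have hx' : F a = 1 := hx
  rw [QuotientGroup.eq_one_iff]
  by_contra ha
  exact h2 ⟨a, ha⟩ (congrFun hx' ⟨a, ha⟩)

/-- homomorphisms to groups of the class that kill `E` factor through `G / rad` -/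
theorem rad_le_ker {G H : Type} [Group G] [j : Group H] (f : G →* H) (hH : X H j) {E : Set G}
    (hE : ∀ a ∈ E, f a = 1) : rad X E ≤ f.ker := fun _ ha => ha H f hH hE

theorem rad_eq_bot {G : Type} [j : Group G] (hG : X G j) : rad X (∅ : Set G) = ⊥ := by
  rw [eq_bot_iff]
  exact fun a ha => ha G (MonoidHom.id G) hG (by simp)

/-! ### group rings -/

section ring

variable {Γ Δ Q : Type} [Group Γ] [Group Δ] [Group Q]

theorem mp_comp (f : Γ →* Δ) (g : Δ →* Q) (x : MonoidAlgebra ℤ Γ) :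
    mp g (mp f x) = mp (g.comp f) x := by
  conv_lhs => rw [sum_single x]
  conv_rhs => rw [sum_single x]
  simp only [map_sum, mp_single, MonoidHom.comp_apply]

theorem map_mp_comp {n : ℕ} (f : Γ →* Δ) (g : Δ →* Q)
    (A : Matrix (Fin n) (Fin n) (MonoidAlgebra ℤ Γ)) :
    (A.map (mp f)).map (mp g) = A.map (mp (g.comp f)) := by
  ext1 i j
  exact mp_comp f g (A i j)

theorem mp_id (x : MonoidAlgebra ℤ Γ) : mp (MonoidHom.id Γ) x = x := by
  conv_lhs => rw [sum_single x]
  conv_rhs => rw [sum_single x]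
  simp only [map_sum, mp_single, MonoidHom.id_apply]

theorem mp_surj (f : Γ →* Δ) (hf : Function.Surjective f) : Function.Surjective (mp f) := by
  intro y
  choose s hs using hf
  refine ⟨∑ g ∈ y.coeff.support, MonoidAlgebra.single (s g) (y.coeff g), ?_⟩
  conv_rhs => rw [sum_single y]
  simp only [map_sum, mp_single, hs]

/-- the differences of elements of the support that become equal in `Δ` -/
noncomputable def dif (f : Γ →* Δ) (z : MonoidAlgebra ℤ Γ) : Finset Γ := by
  classical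
  exact ((z.coeff.support ×ˢ z.coeff.support).filter fun t => f t.1 = f t.2).image
    fun t => t.1 * t.2⁻¹

theorem mem_dif {f : Γ →* Δ} {z : MonoidAlgebra ℤ Γ} {a : Γ} :
    a ∈ dif f z ↔ ∃ g ∈ z.coeff.support, ∃ h ∈ z.coeff.support, f g = f h ∧ g * h⁻¹ = a := by
  classical
  unfold dif
  rw [Finset.mem_image]
  constructor
  · rintro ⟨⟨g, h⟩, h1, h2⟩
    rw [Finset.mem_filter, Finset.mem_product] at h1
    exact ⟨g, h1.1.1, h, h1.1.2, h1.2, h2⟩
  · rintro ⟨g, h1, h, h2, h3, h4⟩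
    exact ⟨(g, h), by rw [Finset.mem_filter, Finset.mem_product]; exact ⟨⟨h1, h2⟩, h3⟩, h4⟩

theorem dif_ker {f : Γ →* Δ} {z : MonoidAlgebra ℤ Γ} {a : Γ} (ha : a ∈ dif f z) : f a = 1 := by
  obtain ⟨g, _, h, _, h3, rfl⟩ := mem_dif.mp ha
  rw [map_mul, map_inv, h3, mul_inv_cancel]

/-- if `z` vanishes over `Δ`, then it vanishes over every group in which `dif f z` is killed -/
theorem mp_zero_of_dif (f : Γ →* Δ) (q : Γ →* Q) (z : MonoidAlgebra ℤ Γ) (h0 : mp f z = 0)
    (h : ∀ a ∈ dif f z, q a = 1) : mp q z = 0 := by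
  classical
  let s : Δ → Q := fun d => if h : ∃ g ∈ z.coeff.support, f g = d then q h.choose else 1
  have hs : ∀ g ∈ z.coeff.support, q g = s (f g) := by
    intro g hg
    have h1 : ∃ g' ∈ z.coeff.support, f g' = f g := ⟨g, hg, rfl⟩
    have h2 : s (f g) = q h1.choose := dif_pos h1
    rw [h2]
    obtain ⟨h3, h4⟩ := h1.choose_spec
    have h5 := h (g * h1.choose⁻¹) (mem_dif.mpr ⟨g, hg, h1.choose, h3, h4.symm, rfl⟩)
    rw [map_mul, map_inv] at h5
    exact mul_inv_eq_one.mp h5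
  have h1 : mp q z = MonoidAlgebra.mapDomain s (mp f z) := by
    conv_lhs => rw [sum_single z]
    conv_rhs => rw [sum_single z]
    simp only [map_sum, mp_single]
    have h2 : ∀ (T : Finset Γ) (c : Γ → ℤ),
        MonoidAlgebra.mapDomain s (∑ x ∈ T, MonoidAlgebra.single (f x) (c x)) =
        ∑ x ∈ T, MonoidAlgebra.single (s (f x)) (c x) := by
      intro T c
      induction T using Finset.induction_on with
      | empty => rw [Finset.sum_empty, Finset.sum_empty, MonoidAlgebra.mapDomain_zero]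
      | insert a T ha ih =>
        rw [Finset.sum_insert ha, Finset.sum_insert ha, MonoidAlgebra.mapDomain_add, ih,
          MonoidAlgebra.mapDomain_single]
    rw [h2]
    exact Finset.sum_congr rfl fun g hg => by rw [hs g hg]
  rw [h1, h0, MonoidAlgebra.mapDomain_zero]

/-- the differences for all entries of a matrix -/
noncomputable def difM {κ : Type} [Fintype κ] (f : Γ →* Δ)
    (M : Matrix κ κ (MonoidAlgebra ℤ Γ)) : Finset Γ := by
  classical
  exact Finset.univ.biUnion fun t : κ × κ => dif f (M t.1 t.2)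

theorem mem_difM {κ : Type} [Fintype κ] {f : Γ →* Δ} {M : Matrix κ κ (MonoidAlgebra ℤ Γ)} {a : Γ} :
    a ∈ difM f M ↔ ∃ i j, a ∈ dif f (M i j) := by
  classical
  unfold difM
  rw [Finset.mem_biUnion]
  simp

theorem map_zero_of_difM {κ : Type} [Fintype κ] (f : Γ →* Δ) (q : Γ →* Q)
    (M : Matrix κ κ (MonoidAlgebra ℤ Γ)) (h0 : M.map (mp f) = 0)
    (h : ∀ a ∈ difM f M, q a = 1) : M.map (mp q) = 0 := by
  ext1 i j
  rw [Matrix.map_apply, Matrix.zero_apply]
  refine mp_zero_of_dif f q _ ?_ fun a ha => h a (mem_difM.mpr ⟨i, j, ha⟩)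
  exact congrFun (congrFun h0 i) j

/-- the image of an invertible matrix -/
noncomputable def mpU {n : ℕ} (f : Γ →* Δ)
    (A : (Matrix (Fin n) (Fin n) (MonoidAlgebra ℤ Γ))ˣ) :
    (Matrix (Fin n) (Fin n) (MonoidAlgebra ℤ Δ))ˣ :=
  Units.map ((mp f).mapMatrix : _ →+* _).toMonoidHom A

theorem mpU_val {n : ℕ} (f : Γ →* Δ) (A : (Matrix (Fin n) (Fin n) (MonoidAlgebra ℤ Γ))ˣ) :
    (mpU f A).val = A.val.map (mp f) := rfl

/-- functoriality -/
theorem zero_map {n : ℕ} (f : Γ →* Δ) (A : (Matrix (Fin n) (Fin n) (MonoidAlgebra ℤ Γ))ˣ)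
    (h : ZeroInWh A.val) : ZeroInWh (A.val.map (mp f)) := by
  obtain ⟨L, hL⟩ := bounded_of_zero h
  have h1 : Bounded L (mpU f A).val := hL.map f
  exact zero_of_TT (TT_of_bounded (mpU f A) h1)

end ring

/-- `Wh(Γ) = 0` -/
def WhZero (Γ : Type) [Group Γ] : Prop :=
  ∀ (n : ℕ) (A : (Matrix (Fin n) (Fin n) (MonoidAlgebra ℤ Γ))ˣ), ZeroInWh A.val

theorem WhZero.retract {Γ Δ : Type} [Group Γ] [Group Δ] (i : Γ →* Δ) (r : Δ →* Γ)
    (h : r.comp i = MonoidHom.id Γ) (hD : WhZero Δ) : WhZero Γ := by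
  intro n A
  have h1 := zero_map r (mpU i A) (hD n (mpU i A))
  rw [mpU_val, map_mp_comp, h] at h1
  have h2 : A.val.map (mp (MonoidHom.id Γ)) = A.val := by
    ext1 a b
    exact mp_id _
  rwa [h2] at h1

theorem nm_bound {Γ Q N : Type} [Group Γ] [Group Q] (q : Γ →* Q)
    (l : List (N × N × MonoidAlgebra ℤ Γ)) : ∃ K : ℕ, ∀ u ∈ l, nm (mp q u.2.2) ≤ K := by
  induction l with
  | nil => exact ⟨0, by simp⟩
  | cons u l ih =>
    obtain ⟨K, hK⟩ := ih
    refine ⟨max K (nm (mp q u.2.2)), fun v hv => ?_⟩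
    rcases List.mem_cons.mp hv with rfl | hv
    · exact le_max_right _ _
    · exact (hK v hv).trans (le_max_left _ _)

/-- if the image of `A` over `G / rad` is zero in the Whitehead group, then finitely many elements of
`rad` suffice -/
theorem finite_part {G : Type} [Group G] {H : Type} [Group H] (π : G →* H)
    (hπ : Function.Surjective π) {n : ℕ} (A : (Matrix (Fin n) (Fin n) (MonoidAlgebra ℤ G))ˣ)
    (h : ZeroInWh (A.val.map (mp π))) :
    ∃ E : Finset G, (∀ a ∈ E, π a = 1) ∧ ∀ (Q : Type) [Group Q] (q : G →* Q),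
      (∀ a ∈ E, q a = 1) → ZeroInWh (A.val.map (mp q)) := by
  obtain ⟨L, m, i, g, ε, l, h1, h2, h3, h4⟩ := bounded_of_zero h
  obtain ⟨g', rfl⟩ := hπ g
  obtain ⟨l', hl'⟩ : ∃ l' : List ((Fin n ⊕ Fin m) × (Fin n ⊕ Fin m) × MonoidAlgebra ℤ G),
      (l'.map fun t => (t.1, t.2.1, mp π t.2.2)) = l := by
    choose s hs using mp_surj π hπ
    refine ⟨l.map fun t => (t.1, t.2.1, s t.2.2), ?_⟩
    rw [List.map_map]
    have : ((fun t : (Fin n ⊕ Fin m) × (Fin n ⊕ Fin m) × MonoidAlgebra ℤ G =>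
        (t.1, t.2.1, mp π t.2.2)) ∘ fun t : (Fin n ⊕ Fin m) × (Fin n ⊕ Fin m) ×
          MonoidAlgebra ℤ H => (t.1, t.2.1, s t.2.2)) = id := by
      funext t
      simp only [Function.comp_apply, hs, id_eq]
    rw [this, List.map_id]
  let M : Matrix (Fin n ⊕ Fin m) (Fin n ⊕ Fin m) (MonoidAlgebra ℤ G) :=
    fromBlocks A.val 0 0 1 -
      Matrix.diagonal (Function.update 1 i (MonoidAlgebra.single g' (ε : ℤ))) * elProd l'
  have hsub : ∀ {Q : Type} [Group Q] (q : G →* Q), M.map (mp q) =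
      fromBlocks (A.val.map (mp q)) 0 0 1 -
      Matrix.diagonal (Function.update 1 i (MonoidAlgebra.single (q g') (ε : ℤ))) *
        elProd (l'.map fun t => (t.1, t.2.1, mp q t.2.2)) := by
    intro Q _ q
    have e1 : M.map (mp q) = (fromBlocks A.val 0 0 1 :
        Matrix (Fin n ⊕ Fin m) (Fin n ⊕ Fin m) (MonoidAlgebra ℤ G)).map (mp q) -
        (Matrix.diagonal (Function.update 1 i (MonoidAlgebra.single g' (ε : ℤ))) *
          elProd l').map (mp q) := by
      ext1 a b
      exact map_sub (mp q) _ _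
    have h6 : ∀ M N : Matrix (Fin n ⊕ Fin m) (Fin n ⊕ Fin m) (MonoidAlgebra ℤ G),
        (M * N).map (mp q) = M.map (mp q) * N.map (mp q) := fun M N => Matrix.map_mul
    rw [e1, h6, elProd_map, diag_map, Matrix.fromBlocks_map]
    simp
  have h0 : M.map (mp π) = 0 := by
    rw [hsub π, h4, hl', sub_self]
  refine ⟨difM π M, fun a ha => ?_, fun Q _ q hq => ?_⟩
  · obtain ⟨i, j, h⟩ := mem_difM.mp ha
    exact dif_ker h
  · have h7 := map_zero_of_difM π q M h0 hq
    rw [hsub q, sub_eq_zero] at h7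
    have h10 : ∀ u ∈ l', u.1 ≠ u.2.1 := by
      intro u hu
      have h11 : (u.1, u.2.1, mp π u.2.2) ∈ l := by
        rw [← hl']
        exact List.mem_map_of_mem (f := fun t : (Fin n ⊕ Fin m) × (Fin n ⊕ Fin m) ×
          MonoidAlgebra ℤ G => (t.1, t.2.1, mp π t.2.2)) hu
      exact (h3 _ h11).1
    obtain ⟨N, hN⟩ := nm_bound q l'
    have h8 : Bounded (m + l'.length + N) (A.val.map (mp q)) := by
      have h12 : ∀ t ∈ l'.map fun t : (Fin n ⊕ Fin m) × (Fin n ⊕ Fin m) ×
          MonoidAlgebra ℤ G => (t.1, t.2.1, mp q t.2.2),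
          t.1 ≠ t.2.1 ∧ nm t.2.2 ≤ m + l'.length + N := by
        intro t ht
        rw [List.mem_map] at ht
        obtain ⟨u, hu, rfl⟩ := ht
        exact ⟨h10 u hu, (hN u hu).trans (by omega)⟩
      exact ⟨m, i, q g', ε, _, by omega, by rw [List.length_map]; omega, h12, h7⟩
    exact zero_of_TT (TT_of_bounded (mpU q A) h8)

end Pool.Agent.J4.H3.WU
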