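import Pool.Agent.J4.H3.WU.Univ

set_option autoImplicit false
set_option linter.unusedSectionVars false

/-! # Torsion-free groups -/

namespace Pool.Agent.J4.H3.WU

open Matrix TH57.Thr

/-- The class of the torsion-free groups. -/
def TF : Cls := fun G _ => ∀ g : G, ∀ k : ℕ, 0 < k → g ^ k = 1 → g = 1

theorem qv_TF : QV TF where
  sub := by
    intro G H _ _ f hf hH g k hk h
    apply hf
    rw [map_one]
    exact hH (f g) k hk (by rw [← map_pow, h, map_one])
  prod := by
    intro I G _ hG g k hk h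
    funext i
    exact hG i (g i) k hk (congrFun h i)

/-- The normal subgroups `N` obtained by killing torsion finitely often: start with the trivial
subgroup, and replace `N` by the normal closure of `N` and an element whose image in `G / N` has
finite order. -/
inductive TK {G : Type} [Group G] : Subgroup G → Prop
  | bot : TK ⊥
  | step (N : Subgroup G) (g : G) (k : ℕ) : TK N → 0 < k → g ^ k ∈ N →
      TK (Subgroup.normalClosure ((N : Set G) ∪ {g}))

variable {G : Type} [Group G]

theorem TK.normal {N : Subgroup G} (h : TK N) : N.Normal := by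
  cases h with
  | bot => infer_instance
  | step N g k h1 hk h2 => exact Subgroup.normalClosure_normal

/-- joins -/
theorem TK.join {N M : Subgroup G} (hN : TK N) (hM : TK M) :
    ∃ K : Subgroup G, TK K ∧ N ≤ K ∧ M ≤ K := by
  induction hM with
  | bot => exact ⟨N, hN, le_rfl, bot_le⟩
  | step M g k _ hk h2 ih =>
    obtain ⟨K, h3, h4, h5⟩ := ih
    refine ⟨_, TK.step K g k h3 hk (h5 h2), ?_, ?_⟩
    · exact h4.trans fun x hx => Subgroup.subset_normalClosure (Or.inl hx)
    · apply Subgroup.normalClosure_le_normal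
      rintro x (hx | hx)
      · exact Subgroup.subset_normalClosure (Or.inl (h5 hx))
      · exact Subgroup.subset_normalClosure (Or.inr hx)

theorem TK.finset (E : Finset G) (hE : ∀ a ∈ E, ∃ N : Subgroup G, TK N ∧ a ∈ N) :
    ∃ N : Subgroup G, TK N ∧ ∀ a ∈ E, a ∈ N := by
  classical
  induction E using Finset.induction_on with
  | empty => exact ⟨⊥, TK.bot, by simp⟩
  | insert a E _ ih =>
    obtain ⟨N, h1, h2⟩ := ih fun b hb => hE b (Finset.mem_insert_of_mem hb)
    obtain ⟨M, h3, h4⟩ := hE a (Finset.mem_insert_self _ _)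
    obtain ⟨K, h5, h6, h7⟩ := h1.join h3
    refine ⟨K, h5, fun b hb => ?_⟩
    rcases Finset.mem_insert.mp hb with rfl | hb
    · exact h7 h4
    · exact h6 (h2 b hb)

/-- the elements that die after killing torsion finitely often -/
def tkRad (G : Type) [Group G] : Subgroup G where
  carrier := {g | ∃ N : Subgroup G, TK N ∧ g ∈ N}
  one_mem' := ⟨⊥, TK.bot, one_mem _⟩
  mul_mem' := by
    rintro a b ⟨N, h1, h2⟩ ⟨M, h3, h4⟩
    obtain ⟨K, h5, h6, h7⟩ := h1.join h3
    exact ⟨K, h5, mul_mem (h6 h2) (h7 h4)⟩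
  inv_mem' := by
    rintro a ⟨N, h1, h2⟩
    exact ⟨N, h1, inv_mem h2⟩

instance : (tkRad G).Normal where
  conj_mem := by
    rintro a ⟨N, h1, h2⟩ g
    exact ⟨N, h1, h1.normal.conj_mem a h2 g⟩

theorem tkRad_tf : TF (G ⧸ tkRad G) inferInstance := by
  intro x k hk h
  obtain ⟨g, rfl⟩ := QuotientGroup.mk_surjective x
  rw [← QuotientGroup.mk_pow, QuotientGroup.eq_one_iff] at h
  rw [QuotientGroup.eq_one_iff]
  obtain ⟨N, h1, h2⟩ := h
  exact ⟨_, TK.step N g k h1 hk h2, Subgroup.subset_normalClosure (Or.inr rfl)⟩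

/-- in a torsion-free group nothing is killed -/
theorem TK.eq_bot (hG : TF G inferInstance) {N : Subgroup G} (h : TK N) : N = ⊥ := by
  induction h with
  | bot => rfl
  | step N g k _ hk h2 ih =>
    subst ih
    have h3 : g = 1 := hG g k hk (Subgroup.mem_bot.mp h2)
    subst h3
    rw [eq_bot_iff]
    apply Subgroup.normalClosure_le_normal
    rintro x (hx | hx)
    · exact hx
    · rw [Set.mem_singleton_iff] at hx
      rw [hx]
      exact one_mem _

/-- vanishing of the image of `A` in the Whitehead group of `G / N` -/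
def DiesMod {n : ℕ} (A : (Matrix (Fin n) (Fin n) (MonoidAlgebra ℤ G))ˣ) (N : Subgroup G)
    [N.Normal] : Prop :=
  ZeroInWh (A.val.map (mp (QuotientGroup.mk' N)))

/-- from the vanishing for one class to finite parts of the residual -/
theorem dies_finite {X : Cls} (hX : QV X) (h : ∀ (Γ : Type) [j : Group Γ], X Γ j → WhZero Γ)
    {n : ℕ} (A : (Matrix (Fin n) (Fin n) (MonoidAlgebra ℤ G))ˣ) :
    ∃ E : Finset G, (∀ a ∈ E, a ∈ rad X (∅ : Set G)) ∧
      ∀ (N : Subgroup G) [N.Normal], (∀ a ∈ E, a ∈ N) → DiesMod A N := by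
  let π := QuotientGroup.mk' (rad X (∅ : Set G))
  have h1 : ZeroInWh (A.val.map (mp π)) := h _ (X_quot hX _) n (mpU π A)
  obtain ⟨E, h2, h3⟩ := finite_part π (QuotientGroup.mk'_surjective _) A h1
  refine ⟨E, fun a ha => (QuotientGroup.eq_one_iff a).mp (h2 a ha), fun N _ hN => ?_⟩
  exact h3 _ (QuotientGroup.mk' N) fun a ha => (QuotientGroup.eq_one_iff a).mpr (hN a ha)

theorem zero_of_bot {Γ : Type} [Group Γ] {n : ℕ}
    (A : (Matrix (Fin n) (Fin n) (MonoidAlgebra ℤ Γ))ˣ) (N : Subgroup Γ) [N.Normal] (hN : N = ⊥)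
    (h : DiesMod A N) : ZeroInWh A.val := by
  subst hN
  let r : Γ ⧸ (⊥ : Subgroup Γ) →* Γ := QuotientGroup.lift ⊥ (MonoidHom.id Γ) (by
    intro x hx
    rw [Subgroup.mem_bot] at hx
    rw [hx]; exact one_mem _)
  have h1 := zero_map r (mpU (QuotientGroup.mk' ⊥) A) h
  rw [mpU_val, map_mp_comp] at h1
  have h2 : r.comp (QuotientGroup.mk' ⊥) = MonoidHom.id Γ := by
    ext x; rfl
  rw [h2] at h1
  have h3 : A.val.map (mp (MonoidHom.id Γ)) = A.val := by
    ext1 a b
    exact mp_id _
  rwa [h3] at h1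

end Pool.Agent.J4.H3.WU
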