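import Pool.Agent.J4.H3.WU.Refl

set_option autoImplicit false
set_option linter.unusedSectionVars false

/-! # Generic invertible matrices and a universal countable group -/

namespace Pool.Agent.J4.H3.WU

open Matrix TH57.Thr

/-! ### the groups -/

/-- The group of the class `X` with `m` generators and the relators `E`: the quotient of the free group
by the intersection of the kernels of its homomorphisms to groups of `X` that kill `E`. -/
def GQ (X : Cls) (m : ℕ) (E : Finset (FreeGroup (Fin m))) : Type :=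
  FreeGroup (Fin m) ⧸ rad X (E : Set (FreeGroup (Fin m)))

instance instGroupGQ (X : Cls) (m : ℕ) (E : Finset (FreeGroup (Fin m))) : Group (GQ X m E) :=
  inferInstanceAs (Group (FreeGroup (Fin m) ⧸ rad X (E : Set (FreeGroup (Fin m)))))

instance instCountableGQ (X : Cls) (m : ℕ) (E : Finset (FreeGroup (Fin m))) :
    Countable (GQ X m E) :=
  (QuotientGroup.mk_surjective (s := rad X (E : Set (FreeGroup (Fin m))))).countable

/-- the canonical map of the free group -/
def qq (X : Cls) (m : ℕ) (E : Finset (FreeGroup (Fin m))) : FreeGroup (Fin m) →* GQ X m E :=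
  QuotientGroup.mk' (rad X (E : Set (FreeGroup (Fin m))))

theorem qq_kill (X : Cls) {m : ℕ} {E : Finset (FreeGroup (Fin m))} {a : FreeGroup (Fin m)}
    (ha : a ∈ E) : qq X m E a = 1 :=
  (QuotientGroup.eq_one_iff a).mpr (sub_rad _ ha)

theorem GQ_mem {X : Cls} (hX : QV X) (m : ℕ) (E : Finset (FreeGroup (Fin m))) :
    X (GQ X m E) inferInstance := X_quot hX _

theorem GQ_lift {X : Cls} {Γ : Type} [j : Group Γ] (hΓ : X Γ j) {m : ℕ}
    {E : Finset (FreeGroup (Fin m))} (φ : FreeGroup (Fin m) →* Γ) (h : ∀ a ∈ E, φ a = 1) :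
    ∃ ψ : GQ X m E →* Γ, ψ.comp (qq X m E) = φ :=
  ⟨QuotientGroup.lift (rad X (E : Set (FreeGroup (Fin m)))) φ (rad_le_ker φ hΓ h), by ext a; rfl⟩

/-! ### patterns -/

/-- positions -/
abbrev Sx (n k : ℕ) : Type := Fin n × Fin n × Fin k

/-- the number of generators -/
def mm (n k : ℕ) : ℕ := Fintype.card (Sx n k ⊕ Sx n k)

/-- the generators -/
noncomputable def ix (n k : ℕ) : Sx n k ⊕ Sx n k ≃ Fin (mm n k) := Fintype.equivFin _

/-- the generic matrix -/
noncomputable def patA (n k : ℕ) (c : Sx n k → Fin 3) :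
    Matrix (Fin n) (Fin n) (MonoidAlgebra ℤ (FreeGroup (Fin (mm n k)))) :=
  fun i j => ∑ t, MonoidAlgebra.single (FreeGroup.of (ix n k (Sum.inl (i, j, t)))) (sg (c (i, j, t)))

/-- the generic inverse -/
noncomputable def patB (n k : ℕ) (c : Sx n k → Fin 3) :
    Matrix (Fin n) (Fin n) (MonoidAlgebra ℤ (FreeGroup (Fin (mm n k)))) :=
  fun i j => ∑ t, MonoidAlgebra.single (FreeGroup.of (ix n k (Sum.inr (i, j, t)))) (sg (c (i, j, t)))

/-- all quotients of two elements of the support of an entry -/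
noncomputable def allD {G : Type} [Group G] {κ : Type} [Fintype κ]
    (M : Matrix κ κ (MonoidAlgebra ℤ G)) : Finset G := by
  classical
  exact Finset.univ.biUnion fun t : κ × κ =>
    ((M t.1 t.2).coeff.support ×ˢ (M t.1 t.2).coeff.support).image fun s => s.1 * s.2⁻¹

theorem difM_sub {G H : Type} [Group G] [Group H] {κ : Type} [Fintype κ] (f : G →* H)
    (M : Matrix κ κ (MonoidAlgebra ℤ G)) : difM f M ⊆ allD M := by
  classical
  intro a ha
  obtain ⟨i, j, h⟩ := mem_difM.mp ha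
  obtain ⟨g, h1, g', h2, -, h3⟩ := mem_dif.mp h
  unfold allD
  rw [Finset.mem_biUnion]
  refine ⟨(i, j), Finset.mem_univ _, ?_⟩
  rw [Finset.mem_image]
  exact ⟨(g, g'), Finset.mem_product.mpr ⟨h1, h2⟩, h3⟩

/-- the possible relators for a pattern -/
noncomputable def dwords (n k : ℕ) (c c' : Sx n k → Fin 3) :
    Finset (FreeGroup (Fin (mm n k))) := by
  classical
  exact allD (patA n k c * patB n k c' - 1) ∪ allD (patB n k c' * patA n k c - 1)

theorem map_sub_one {G H : Type} [Group G] [Group H] {n : ℕ} (f : G →* H)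
    (M N : Matrix (Fin n) (Fin n) (MonoidAlgebra ℤ G)) :
    (M * N - 1).map (mp f) = M.map (mp f) * N.map (mp f) - 1 := by
  have h := map_sub (mp f).mapMatrix (M * N) 1
  rw [map_mul, map_one] at h
  exact h

/-- every invertible matrix over a group of the class comes from a generic one -/
theorem rep {X : Cls} {Γ : Type} [j : Group Γ] (hΓ : X Γ j) {n k : ℕ}
    (A : (Matrix (Fin n) (Fin n) (MonoidAlgebra ℤ Γ))ˣ)
    (h1 : ∀ i j, nm (A.val i j) ≤ k) (h2 : ∀ i j, nm (A⁻¹.val i j) ≤ k) :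
    ∃ c c' : Sx n k → Fin 3, ∃ E ∈ (dwords n k c c').powerset,
      ∃ U : (Matrix (Fin n) (Fin n) (MonoidAlgebra ℤ (GQ X (mm n k) E)))ˣ,
        U.val = (patA n k c).map (mp (qq X (mm n k) E)) ∧
        ∃ ψ : GQ X (mm n k) E →* Γ, U.val.map (mp ψ) = A.val := by
  classical
  have hA : ∀ i j, ∃ (c : Fin k → Fin 3) (g : Fin k → Γ),
      A.val i j = ∑ t, MonoidAlgebra.single (g t) (sg (c t)) := fun i j => nm_terms k _ (h1 i j)
  have hB : ∀ i j, ∃ (c : Fin k → Fin 3) (g : Fin k → Γ),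
      A⁻¹.val i j = ∑ t, MonoidAlgebra.single (g t) (sg (c t)) := fun i j => nm_terms k _ (h2 i j)
  choose c g hc using hA
  choose c' g' hc' using hB
  let C : Sx n k → Fin 3 := fun s => c s.1 s.2.1 s.2.2
  let C' : Sx n k → Fin 3 := fun s => c' s.1 s.2.1 s.2.2
  let v : Sx n k ⊕ Sx n k → Γ := Sum.elim (fun s => g s.1 s.2.1 s.2.2) (fun s => g' s.1 s.2.1 s.2.2)
  let φ : FreeGroup (Fin (mm n k)) →* Γ := FreeGroup.lift fun a => v ((ix n k).symm a)
  have hφ : ∀ s, φ (FreeGroup.of (ix n k s)) = v s := by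
    intro s
    simp only [φ, FreeGroup.lift_apply_of, Equiv.symm_apply_apply]
  have eA : (patA n k C).map (mp φ) = A.val := by
    ext1 a b
    rw [Matrix.map_apply, hc]
    simp only [patA, map_sum, mp_single, hφ]
    rfl
  have eB : (patB n k C').map (mp φ) = A⁻¹.val := by
    ext1 a b
    rw [Matrix.map_apply, hc']
    simp only [patB, map_sum, mp_single, hφ]
    rfl
  have z1 : (patA n k C * patB n k C' - 1).map (mp φ) = 0 := by
    rw [map_sub_one, eA, eB, A.mul_inv, sub_self]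
  have z2 : (patB n k C' * patA n k C - 1).map (mp φ) = 0 := by
    rw [map_sub_one, eA, eB, A.inv_mul, sub_self]
  let E : Finset (FreeGroup (Fin (mm n k))) :=
    difM φ (patA n k C * patB n k C' - 1) ∪ difM φ (patB n k C' * patA n k C - 1)
  have hE : ∀ a ∈ E, φ a = 1 := by
    intro a ha
    rcases Finset.mem_union.mp ha with h | h
    · obtain ⟨i, j, h⟩ := mem_difM.mp h
      exact dif_ker h
    · obtain ⟨i, j, h⟩ := mem_difM.mp h
      exact dif_ker h
  have y1 := map_zero_of_difM φ (qq X (mm n k) E) _ z1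
    (fun a ha => qq_kill X (Finset.mem_union_left _ ha))
  have y2 := map_zero_of_difM φ (qq X (mm n k) E) _ z2
    (fun a ha => qq_kill X (Finset.mem_union_right _ ha))
  rw [map_sub_one, sub_eq_zero] at y1 y2
  obtain ⟨ψ, hψ⟩ := GQ_lift hΓ φ hE
  refine ⟨C, C', E, ?_, ⟨(patA n k C).map (mp (qq X (mm n k) E)),
    (patB n k C').map (mp (qq X (mm n k) E)), y1, y2⟩, rfl, ψ, ?_⟩
  · rw [Finset.mem_powerset]
    exact Finset.union_subset_union (difM_sub _ _) (difM_sub _ _)
  · change ((patA n k C).map (mp (qq X (mm n k) E))).map (mp ψ) = A.val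
    rw [map_mp_comp, hψ, eA]

/-! ### uniform bounds -/

/-- The sum of the absolute values of all coefficients of all entries. -/
def nrm {Γ : Type} [Group Γ] {n : ℕ} (A : Matrix (Fin n) (Fin n) (MonoidAlgebra ℤ Γ)) : ℕ :=
  ∑ i, ∑ j, nm (A i j)

theorem nm_le_nrm {Γ : Type} [Group Γ] {n : ℕ} (A : Matrix (Fin n) (Fin n) (MonoidAlgebra ℤ Γ))
    (i j : Fin n) : nm (A i j) ≤ nrm A :=
  (Finset.single_le_sum (f := fun j => nm (A i j)) (fun _ _ => Nat.zero_le _)
    (Finset.mem_univ j)).trans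
    (Finset.single_le_sum (f := fun i => ∑ j, nm (A i j)) (fun _ _ => Nat.zero_le _)
      (Finset.mem_univ i))

theorem size_le_nrm {Γ : Type} [Group Γ] {n : ℕ}
    (A : (Matrix (Fin n) (Fin n) (MonoidAlgebra ℤ Γ))ˣ) : n ≤ nrm A.val := by
  have h : ∀ i : Fin n, 1 ≤ ∑ j, nm (A.val i j) := by
    intro i
    by_contra h
    have h0 : ∑ j, nm (A.val i j) = 0 := by omega
    have h1 : ∀ j, A.val i j = 0 := fun j =>
      (nm_zero_iff _).mp ((Finset.sum_eq_zero_iff.mp h0) j (Finset.mem_univ j))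
    have h2 := congrFun (congrFun A.mul_inv i) i
    rw [Matrix.mul_apply, Matrix.one_apply_eq] at h2
    simp only [h1, zero_mul, Finset.sum_const_zero] at h2
    exact zero_ne_one h2
  calc n = ∑ i : Fin n, 1 := by simp
    _ ≤ _ := Finset.sum_le_sum fun i _ => h i

theorem uniform {X : Cls} (hX : QV X)
    (h : ∀ (Γ : Type) [j : Group Γ], X Γ j → WhZero Γ) (k : ℕ) :
    ∃ L : ℕ, ∀ (Γ : Type) [j : Group Γ], X Γ j → ∀ (n : ℕ)
      (A : (Matrix (Fin n) (Fin n) (MonoidAlgebra ℤ Γ))ˣ), nrm A.val ≤ k → nrm A⁻¹.val ≤ k →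
        Bounded L A.val := by
  have h0 : ∀ (n : ℕ) (c c' : Sx n k → Fin 3) (E : Finset (FreeGroup (Fin (mm n k)))),
      ∃ L : ℕ, ∀ U : (Matrix (Fin n) (Fin n) (MonoidAlgebra ℤ (GQ X (mm n k) E)))ˣ,
        U.val = (patA n k c).map (mp (qq X (mm n k) E)) → Bounded L U.val := by
    intro n c c' E
    by_cases hU : ∃ U : (Matrix (Fin n) (Fin n) (MonoidAlgebra ℤ (GQ X (mm n k) E)))ˣ,
        U.val = (patA n k c).map (mp (qq X (mm n k) E))
    · obtain ⟨U, hU⟩ := hU
      obtain ⟨L, hL⟩ := bounded_of_zero (h _ (GQ_mem hX _ E) n U)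
      exact ⟨L, fun V hV => by rw [hV, ← hU]; exact hL⟩
    · exact ⟨0, fun U hU' => absurd ⟨U, hU'⟩ hU⟩
  choose L hL using h0
  refine ⟨∑ n ∈ Finset.range (k + 1), ∑ c, ∑ c', ∑ E ∈ (dwords n k c c').powerset, L n c c' E,
    fun Γ _ hΓ n A hA hA' => ?_⟩
  obtain ⟨c, c', E, hE, U, hU, ψ, hψ⟩ := rep hΓ A (fun i j => (nm_le_nrm _ i j).trans hA)
    (fun i j => (nm_le_nrm _ i j).trans hA')
  have hn : n ∈ Finset.range (k + 1) := by
    rw [Finset.mem_range]
    exact Nat.lt_succ_of_le ((size_le_nrm A).trans hA)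
  have h1 : L n c c' E ≤ ∑ n ∈ Finset.range (k + 1), ∑ c, ∑ c',
      ∑ E ∈ (dwords n k c c').powerset, L n c c' E :=
    ((Finset.single_le_sum (f := fun E => L n c c' E) (fun _ _ => Nat.zero_le _) hE).trans
      (Finset.single_le_sum (f := fun c' => ∑ E ∈ (dwords n k c c').powerset, L n c c' E)
        (fun _ _ => Nat.zero_le _) (Finset.mem_univ c'))).trans
    ((Finset.single_le_sum (f := fun c => ∑ c', ∑ E ∈ (dwords n k c c').powerset, L n c c' E)
        (fun _ _ => Nat.zero_le _) (Finset.mem_univ c)).trans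
      (Finset.single_le_sum
        (f := fun n => ∑ c, ∑ c', ∑ E ∈ (dwords n k c c').powerset, L n c c' E)
        (fun _ _ => Nat.zero_le _) hn))
  rw [← hψ]
  exact ((hL n c c' E U hU).map ψ).mono h1

/-! ### the universal group -/

/-- The restricted direct product of the groups `GQ X m E`. -/
def UG (X : Cls) : Subgroup (∀ j : Σ m : ℕ, Finset (FreeGroup (Fin m)), GQ X j.1 j.2) where
  carrier := {x | {j | x j ≠ 1}.Finite}
  one_mem' := by
    have : {j : Σ m : ℕ, Finset (FreeGroup (Fin m)) |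
      (1 : ∀ j : Σ m : ℕ, Finset (FreeGroup (Fin m)), GQ X j.1 j.2) j ≠ 1} = ∅ := by
      ext j; simp
    rw [Set.mem_ofPred_eq, this]
    exact Set.finite_empty
  mul_mem' := by
    intro x y hx hy
    refine (Set.Finite.union hx hy).subset fun j hj => ?_
    by_contra h
    rw [Set.mem_union, not_or] at h
    apply hj
    have h1 : x j = 1 := by by_contra h2; exact h.1 h2
    have h2 : y j = 1 := by by_contra h3; exact h.2 h3
    rw [Pi.mul_apply, h1, h2, mul_one]
  inv_mem' := by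
    intro x hx
    refine Set.Finite.subset hx fun j hj h => hj ?_
    rw [Pi.inv_apply, h, inv_one]

/-- The universal group of the class `X`. -/
abbrev Univ (X : Cls) : Type := UG X

instance (X : Cls) : Countable (Univ X) := by
  classical
  let F : Univ X → Finset (Σ j : Σ m : ℕ, Finset (FreeGroup (Fin m)), GQ X j.1 j.2) :=
    fun x => x.2.toFinset.image fun j => ⟨j, x.1 j⟩
  refine Function.Injective.countable (f := F) fun x y hxy => ?_
  have key : ∀ (x y : Univ X), F x = F y → ∀ j, x.1 j ≠ 1 → x.1 j = y.1 j := by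
    intro x y h j hj
    have h1 : (⟨j, x.1 j⟩ : Σ j : Σ m : ℕ, Finset (FreeGroup (Fin m)), GQ X j.1 j.2) ∈ F x :=
      Finset.mem_image.mpr ⟨j, (Set.Finite.mem_toFinset _).mpr hj, rfl⟩
    rw [h] at h1
    obtain ⟨j', _, h3⟩ := Finset.mem_image.mp h1
    rw [Sigma.mk.injEq] at h3
    obtain ⟨rfl, h4⟩ := h3
    exact (eq_of_heq h4).symm
  apply Subtype.ext
  funext j
  by_cases h1 : x.1 j = 1
  · by_cases h2 : y.1 j = 1
    · rw [h1, h2]
    · exact (key y x hxy.symm j h2).symm
  · exact key x y hxy j h1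

theorem Univ_mem {X : Cls} (hX : QV X) : X (Univ X) inferInstance :=
  hX.sub _ (∀ j : Σ m : ℕ, Finset (FreeGroup (Fin m)), GQ X j.1 j.2) (UG X).subtype
    (UG X).subtype_injective (hX.prod _ _ fun j => GQ_mem hX j.1 j.2)

/-- the inclusion of a factor -/
noncomputable def inU (X : Cls) (j : Σ m : ℕ, Finset (FreeGroup (Fin m))) :
    GQ X j.1 j.2 →* Univ X := by
  classical
  exact (MonoidHom.mulSingle (fun j : Σ m : ℕ, Finset (FreeGroup (Fin m)) => GQ X j.1 j.2) j).codRestrict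
    (UG X) (by
      intro x
      refine (Set.finite_singleton j).subset fun i hi => ?_
      by_contra h
      apply hi
      exact Pi.mulSingle_eq_of_ne (M := fun j : Σ m : ℕ, Finset (FreeGroup (Fin m)) =>
        GQ X j.1 j.2) h x)

/-- the projection to a factor -/
def prU (X : Cls) (j : Σ m : ℕ, Finset (FreeGroup (Fin m))) : Univ X →* GQ X j.1 j.2 :=
  (Pi.evalMonoidHom (fun j : Σ m : ℕ, Finset (FreeGroup (Fin m)) => GQ X j.1 j.2) j).comp
    (UG X).subtype

theorem pr_in (X : Cls) (j : Σ m : ℕ, Finset (FreeGroup (Fin m))) :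
    (prU X j).comp (inU X j) = MonoidHom.id _ := by
  classical
  ext x
  exact Pi.mulSingle_eq_same (M := fun j : Σ m : ℕ, Finset (FreeGroup (Fin m)) =>
    GQ X j.1 j.2) j x

theorem of_univ {X : Cls} (h : WhZero (Univ X)) (Γ : Type) [j : Group Γ]
    (hΓ : X Γ j) : WhZero Γ := by
  intro n A
  obtain ⟨c, c', E, hE, U, hU, ψ, hψ⟩ := rep hΓ A
    (k := nrm A.val + nrm A⁻¹.val) (fun i j => (nm_le_nrm _ i j).trans (Nat.le_add_right _ _))
    (fun i j => (nm_le_nrm _ i j).trans (Nat.le_add_left _ _))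
  have h1 : WhZero (GQ X _ E) := WhZero.retract (inU X ⟨_, E⟩) (prU X ⟨_, E⟩) (pr_in X ⟨_, E⟩) h
  have h2 := zero_map ψ U (h1 n U)
  rwa [hψ] at h2

end Pool.Agent.J4.H3.WU
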