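import Pool.Agent.J4.H3.WU.Tor

/-!
# Vanishing of Whitehead groups for a class of groups: one countable group, uniform bounds, finite parts

Let `X` be a class of groups closed under subgroups and cartesian products, for instance the class of all
torsion-free groups. The definitions are in `Pool/Agent/J4/H3/WU/`.

* `nm x` is the sum of the absolute values of the coefficients of `x ∈ ℤΓ`, and `nrm A` the sum of the
  `nm` of the entries of a matrix (`Fac.lean`, `Univ.lean`).
* `ZeroInWh A` (`Fac.lean`): the class of `A` in `Wh(Γ)` is trivial, in the form of the frozen statement.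
* `Bounded L A` (`Fac.lean`): `diag(A, 1_m) = diag(1, …, ±g, …, 1) e_1 ⋯ e_r` with `m, r ≤ L` and
  elementary matrices `e_i = 1 + x E_ab` with `a ≠ b` and `nm x ≤ L`.
* `rad X E` (`Refl.lean`): the intersection of the kernels of the homomorphisms of `G` to groups of `X`
  which kill `E`; `GQ X m E = F_m / rad X E` for a finite subset `E` of the free group `F_m`, and
  `Univ X` is the restricted direct product of the groups `GQ X m E`, over all `m` and `E`
  (`Univ.lean`).
* `TK N` (`Tor.lean`): the normal subgroup `N` is obtained from the trivial one by finitely many steps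
  `N ↦ ⟨⟨N, g⟩⟩`, where the image of `g` in `G / N` has finite order. `DiesMod A N`: the image of `A` in
  `Wh(G / N)` is trivial.

Proof. A relation over `ℤΓ` between finitely many elements holds because finitely many pairs of words in
the group elements involved are equal. So an invertible matrix `A` over `ℤΓ`, `Γ ∈ X`, is the image of
one over the group ring of some `GQ X m E`; if the norms of `A` and `A⁻¹` are at most `k`, only finitely
many `m`, `E` and matrices over the free group ring are needed. The groups `GQ X m E` are retracts of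
`Univ X`. For a matrix over `ℤG`, `G` arbitrary, a factorisation over `G / rad X ∅` holds already over
`G / ⟨⟨E⟩⟩` for a finite subset `E` of `rad X ∅`.
-/

set_option autoImplicit false

namespace Pool.Agent.Results.MP_8f66f0_al.UniversalGroup

open Pool.Agent.J4.H3.WU

/-- All groups of the class have trivial Whitehead groups. -/
def Vanish (X : Cls) : Prop := ∀ (Γ : Type) [j : Group Γ], X Γ j → WhZero Γ

/-- **Vanishing of Whitehead groups for a class: one countable group, uniform bounds, finite parts.**
Let `X` be a class of groups closed under subgroups and cartesian products. The group `Univ X` is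
countable and lies in `X`, and the following are equivalent:
(a) `Wh(Γ) = 0` for all `Γ` in `X`;
(b) `Wh(Univ X) = 0`;
(c) for every `k` there is an `L` such that for every `Γ` in `X`, every `n` and every `A ∈ GL_n(ℤΓ)`
with `A` and `A⁻¹` of norm at most `k`, a stabilisation `diag(A, 1_m)` with `m ≤ L` is a product of
`diag(1, …, ±g, …, 1)` and at most `L` elementary matrices with entries of norm at most `L`;
(d) for every group `G` and every `A ∈ GL_n(ℤG)` there is a finite set `E` of elements which die in all
quotients of `G` that lie in `X`, such that the image of `A` in `Wh(G / ⟨⟨E⟩⟩)` is trivial.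
For the class of all torsion-free groups, (a) is also equivalent to:
(e) for every group `G` and every `A ∈ GL_n(ℤG)` one can kill torsion finitely often so that the image
of `A` in the Whitehead group of the quotient is trivial. -/
theorem result :
    (∀ X : Cls, QV X →
      (X (Univ X) inferInstance ∧ Countable (Univ X)) ∧
      (Vanish X ↔ WhZero (Univ X)) ∧
      (Vanish X ↔ ∀ k : ℕ, ∃ L : ℕ, ∀ (Γ : Type) [j : Group Γ], X Γ j → ∀ (n : ℕ)
        (A : (Matrix (Fin n) (Fin n) (MonoidAlgebra ℤ Γ))ˣ), nrm A.val ≤ k → nrm A⁻¹.val ≤ k →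
          Bounded L A.val) ∧
      (Vanish X ↔ ∀ (G : Type) [Group G] (n : ℕ)
        (A : (Matrix (Fin n) (Fin n) (MonoidAlgebra ℤ G))ˣ),
        ∃ E : Finset G, (∀ a ∈ E, a ∈ rad X (∅ : Set G)) ∧
          DiesMod A (Subgroup.normalClosure (E : Set G)))) ∧
    QV TF ∧
    (Vanish TF ↔ ∀ (G : Type) [Group G] (n : ℕ)
      (A : (Matrix (Fin n) (Fin n) (MonoidAlgebra ℤ G))ˣ),
      ∃ (N : Subgroup G) (_ : N.Normal), TK N ∧ DiesMod A N) := by
  refine ⟨fun X hX => ⟨⟨Univ_mem hX, inferInstance⟩, ?_, ?_, ?_⟩, qv_TF, ?_⟩
  · exact ⟨fun h => h _ (Univ_mem hX), fun h Γ _ hΓ => of_univ h Γ hΓ⟩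
  · constructor
    · intro h k
      exact uniform hX h k
    · intro h Γ _ hΓ n A
      obtain ⟨L, hL⟩ := h (nrm A.val + nrm A⁻¹.val)
      exact zero_of_TT (TT_of_bounded A
        (hL Γ hΓ n A (Nat.le_add_right _ _) (Nat.le_add_left _ _)))
  · constructor
    · intro h G _ n A
      obtain ⟨E, h1, h2⟩ := dies_finite hX h A
      exact ⟨E, h1, h2 _ fun a ha => Subgroup.subset_normalClosure ha⟩
    · intro h Γ _ hΓ n A
      obtain ⟨E, h1, h2⟩ := h Γ n A
      refine zero_of_bot A _ ?_ h2
      rw [rad_eq_bot hΓ] at h1
      rw [eq_bot_iff]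
      exact Subgroup.normalClosure_le_normal h1
  · constructor
    · intro h G _ n A
      obtain ⟨E, h1, h2⟩ := dies_finite qv_TF h A
      have h3 : ∀ a ∈ E, ∃ N : Subgroup G, TK N ∧ a ∈ N := fun a ha =>
        (QuotientGroup.eq_one_iff (N := tkRad G) a).mp
          (h1 a ha _ (QuotientGroup.mk' (tkRad G)) tkRad_tf (by simp))
      obtain ⟨N, h4, h5⟩ := TK.finset E h3
      have := h4.normal
      exact ⟨N, h4.normal, h4, h2 N h5⟩
    · intro h Γ _ hΓ n A
      obtain ⟨N, h1, h2, h3⟩ := h Γ n A
      exact zero_of_bot A N (h2.eq_bot hΓ) h3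

end Pool.Agent.Results.MP_8f66f0_al.UniversalGroup
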